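import Pool.Agent.H435.MassG

open MeasureTheory Set Topology Filter
open scoped Pointwise

namespace Pool.Agent.Results.MP_77d991_gt.GromovMassSup

open Pool.Agent.H435.Mass

/-- Gromov's mass of the body `M` in the norm with unit ball `M`:
`(2 ^ d / d!) * vol M / max {vol (conv {± v_1, …, ± v_d})}`, the maximum being over the linearly
independent `v_1, …, v_d` in `M` (it is attained, and the Lean uses the supremum). -/
noncomputable def gromovMass {d : ℕ} (M : Set (Fin d → ℝ)) : ℝ :=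
  2 ^ d / (d.factorial : ℝ) * ((volume M).toReal /
    sSup {t : ℝ | ∃ v : Fin d → Fin d → ℝ, (∀ i, v i ∈ M) ∧ LinearIndependent ℝ v ∧
      t = (volume (crossPolytope v)).toReal})

theorem gromovMass_eq {d : ℕ} (hd : 1 ≤ d) {M : Set (Fin d → ℝ)} {v : Fin d → Fin d → ℝ}
    (hv : ∀ i, v i ∈ M) (hmax : DetLE M |dt v|) (hpos : 0 < |dt v|) :
    gromovMass M = (volume M).toReal / |dt v| := by
  have hc : (0:ℝ) < 2 ^ d / (d.factorial : ℝ) := by positivity
  have hvol : ∀ w : Fin d → Fin d → ℝ, (volume (crossPolytope w)).toReal = 2 ^ d / (d.factorial : ℝ) * |dt w| := by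
    intro w
    rw [volume_crossPolytope hd, ENNReal.toReal_ofReal (by positivity)]
  have hsup : sSup {t : ℝ | ∃ v : Fin d → Fin d → ℝ, (∀ i, v i ∈ M) ∧ LinearIndependent ℝ v ∧
      t = (volume (crossPolytope v)).toReal} = 2 ^ d / (d.factorial : ℝ) * |dt v| := by
    apply IsGreatest.csSup_eq
    constructor
    · refine ⟨v, hv, ?_, (hvol v).symm⟩
      exact (((Pi.basisFun ℝ (Fin d)).is_basis_iff_det).2 (isUnit_iff_ne_zero.2 (abs_pos.1 hpos))).1
    · rintro t ⟨w, hw, -, rfl⟩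
      rw [hvol w]
      exact mul_le_mul_of_nonneg_left (hmax w hw) hc.le
  unfold gromovMass
  rw [hsup]
  field_simp

/-- For every `d ≥ 1` the least upper bound of Gromov's mass of `M`, over all `o`-symmetric convex
bodies `M` of `ℝ^d`, is the volume `π^(d/2) / Γ(d/2 + 1)` of the Euclidean unit ball, and the bodies
at which it is attained are exactly the ellipsoids centred at the origin. -/
theorem result (d : ℕ) (hd : 1 ≤ d) :
    IsLUB {t : ℝ | ∃ M : Set (Fin d → ℝ), IsBody M ∧ t = gromovMass M}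
      (√Real.pi ^ d / Real.Gamma (d / 2 + 1)) ∧
    ∀ M : Set (Fin d → ℝ), (IsBody M ∧ gromovMass M = √Real.pi ^ d / Real.Gamma (d / 2 + 1)) ↔
      IsEllipsoid M := by
  obtain ⟨n, rfl⟩ : ∃ n, d = n + 1 := ⟨d - 1, by omega⟩
  set κ : ℝ := √Real.pi ^ (n + 1) / Real.Gamma (((n + 1 : ℕ) : ℝ) / 2 + 1) with hκ
  have hκpos : 0 < κ := by
    have h1 : 0 < Real.Gamma (((n + 1 : ℕ) : ℝ) / 2 + 1) := Real.Gamma_pos_of_pos (by positivity)
    have h2 : 0 < √Real.pi := Real.sqrt_pos.2 Real.pi_pos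
    positivity
  have hball : volume (unitBall (n + 1)) = ENNReal.ofReal κ := volume_unitBall hd
  -- the mass is the volume of a normalised image
  have hnorm : ∀ M : Set (Fin (n + 1) → ℝ), IsBody M → ∃ A : (Fin (n + 1) → ℝ) ≃ₗ[ℝ] (Fin (n + 1) → ℝ),
      IsBody (A '' M) ∧ DetLE (A '' M) 1 ∧ gromovMass M = (volume (A '' M)).toReal := by
    intro M hM
    obtain ⟨v, hv, hpos, hmax⟩ := hM.exists_max_dt
    obtain ⟨A, w, hw, hAw, hb, hdet, -, -⟩ := exists_image hM
    have h1 : |dt w| = |dt v| := by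
      apply le_antisymm (hmax w hw)
      have h2 := hdet (fun i => A (v i)) (fun i => ⟨v i, hv i, rfl⟩)
      have h3 := dt_map (A : (Fin (n + 1) → ℝ) →ₗ[ℝ] (Fin (n + 1) → ℝ)) v
      have h4 : |LinearMap.det (A : (Fin (n + 1) → ℝ) →ₗ[ℝ] (Fin (n + 1) → ℝ))| * |dt v| ≤ 1 := by
        rw [← abs_mul, ← h3]; exact h2
      have h5 : 0 < |LinearMap.det (A : (Fin (n + 1) → ℝ) →ₗ[ℝ] (Fin (n + 1) → ℝ))| := by
        by_contra h
        have h6 : |LinearMap.det (A : (Fin (n + 1) → ℝ) →ₗ[ℝ] (Fin (n + 1) → ℝ))| = 0 :=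
          le_antisymm (not_lt.1 h) (abs_nonneg _)
        rw [h6, zero_mul] at hAw
        exact zero_ne_one hAw
      rw [← hAw] at h4
      exact le_of_mul_le_mul_left h4 h5
    refine ⟨A, hb, hdet, ?_⟩
    rw [gromovMass_eq hd hv hmax hpos]
    have h2 : volume (A '' M) = ENNReal.ofReal |LinearMap.det (A : (Fin (n + 1) → ℝ) →ₗ[ℝ] (Fin (n + 1) → ℝ))| * volume M :=
      volume_image (A : (Fin (n + 1) → ℝ) →ₗ[ℝ] (Fin (n + 1) → ℝ)) M
    rw [h2, ENNReal.toReal_mul, ENNReal.toReal_ofReal (abs_nonneg _)]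
    rw [h1] at hAw
    rw [div_eq_iff hpos.ne']
    calc (volume M).toReal = (|LinearMap.det (A : (Fin (n + 1) → ℝ) →ₗ[ℝ] (Fin (n + 1) → ℝ))| * |dt v|) * (volume M).toReal := by
          rw [hAw, one_mul]
      _ = _ := by ring
  obtain ⟨E, hE⟩ := exists_ext (n + 1)
  have hEvol : volume E = ENNReal.ofReal κ := by rw [hE.volume_eq, hball]
  -- ellipsoids
  have hell : ∀ M : Set (Fin (n + 1) → ℝ), IsEllipsoid M → IsBody M ∧ gromovMass M = κ := by
    rintro M ⟨A, hA⟩
    have hA' : M = A '' unitBall (n + 1) := hA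
    have hpos : 0 < |LinearMap.det (A : (Fin (n + 1) → ℝ) →ₗ[ℝ] (Fin (n + 1) → ℝ))| :=
      abs_pos.2 (LinearEquiv.isUnit_det' A).ne_zero
    have h1 : |dt (fun i => A (Pi.single i (1:ℝ)))| =
        |LinearMap.det (A : (Fin (n + 1) → ℝ) →ₗ[ℝ] (Fin (n + 1) → ℝ))| := by
      have h4 := dt_map (A : (Fin (n + 1) → ℝ) →ₗ[ℝ] (Fin (n + 1) → ℝ)) (fun i => (Pi.single i (1:ℝ) : Fin (n + 1) → ℝ))
      rw [dt_single, mul_one] at h4
      rw [← h4]; rfl
    have h2 : DetLE M |dt (fun i => A (Pi.single i (1:ℝ)))| := by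
      rw [h1, hA']
      have := (detLE_unitBall (n + 1)).image (A : (Fin (n + 1) → ℝ) →ₗ[ℝ] (Fin (n + 1) → ℝ))
      rwa [mul_one] at this
    have h3 : ∀ i, (fun i => A (Pi.single i (1:ℝ))) i ∈ M := by
      intro i; rw [hA']; exact ⟨_, unitBall_single i, rfl⟩
    refine ⟨by rw [hA']; exact (isBody_unitBall _).image A, ?_⟩
    rw [gromovMass_eq hd h3 h2 (by rw [h1]; exact hpos), h1]
    have h5 : volume M = ENNReal.ofReal |LinearMap.det (A : (Fin (n + 1) → ℝ) →ₗ[ℝ] (Fin (n + 1) → ℝ))| * volume (unitBall (n + 1)) := by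
      rw [hA']
      exact volume_image (A : (Fin (n + 1) → ℝ) →ₗ[ℝ] (Fin (n + 1) → ℝ)) (unitBall (n + 1))
    rw [h5, hball, ENNReal.toReal_mul, ENNReal.toReal_ofReal hpos.le, ENNReal.toReal_ofReal hκpos.le]
    field_simp
  refine ⟨⟨?_, ?_⟩, ?_⟩
  · rintro t ⟨M, hM, rfl⟩
    obtain ⟨A, hb, hdet, hmass⟩ := hnorm M hM
    rw [hmass]
    have h1 := hE.max _ hb hdet
    rw [hEvol] at h1
    calc (volume (A '' M)).toReal ≤ (ENNReal.ofReal κ).toReal := ENNReal.toReal_mono ENNReal.ofReal_ne_top h1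
      _ = κ := ENNReal.toReal_ofReal hκpos.le
  · intro b hb
    have h1 : IsEllipsoid (unitBall (n + 1)) := by
      refine ⟨LinearEquiv.refl ℝ _, ?_⟩
      ext x
      constructor
      · intro h; exact ⟨x, h, rfl⟩
      · rintro ⟨y, hy, rfl⟩; exact hy
    have h2 := hell _ h1
    apply hb
    exact ⟨_, h2.1, h2.2.symm⟩
  · intro M
    constructor
    · rintro ⟨hM, hmass⟩
      obtain ⟨A, hb, hdet, hmass'⟩ := hnorm M hM
      have h1 : volume (A '' M) = ENNReal.ofReal κ := by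
        rw [← hmass, hmass', ENNReal.ofReal_toReal hb.volume_ne_top]
      have hExt : Ext (A '' M) :=
        { body := hb
          det_le := hdet
          max := by
            intro M' hM' hd'
            rw [h1, ← hEvol]
            exact hE.max M' hM' hd' }
      obtain ⟨B, hB⟩ := hExt.isEllipsoid
      refine ⟨B.trans A.symm, ?_⟩
      have h2 : M = A.symm '' (A '' M) := by
        rw [← image_comp]; simp
      rw [h2, hB, ← image_comp]
      rfl
    · exact hell M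

end Pool.Agent.Results.MP_77d991_gt.GromovMassSup
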